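import Mathlib
import Pool.Agent.Lib.P4a7640.Furst
import Pool.Agent.Lib.P4a7640T.Sharp
import Pool.Agent.Lib.P4a7640T.OscTame
import Pool.Agent.Lib.P4a7640T.CloseSq
import Pool.Agent.Lib.P4a7640T.CloseLog

/-!
# All but countably many classes of a tame family have the Bernoulli shift as a Furstenberg system
-/

open MeasureTheory Filter Topology Finset
open Pool.Agent.Lib.P4a7640
open Pool.Agent.Lib.P4a7640T

namespace Pool.Agent.Results.MP_4a7640_nt.CountableExceptions

/-- Let `w : ℕ → [0,∞)` be a weight of infinite total mass; at `w`-almost all scales `N` means for all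
`N` outside a set of `w`-density zero.

(1) Let `F` be a family of multiplicative functions `ℕ → {-1,1}` that is tame: for all `c` and
`ρ > 0` there is `k` such that for any `k` members of `F`, at `w`-almost all scales `N`, two of them
differ by at most `ρ` (in `∑ 1/p`) on the primes `N^(1/c) < p ≤ N`. Then there is a countable
`C ⊆ F` such that every `f ∈ F` with `∑_{f(p) ≠ c(p)} 1/p = ∞` for all `c ∈ C` is aperiodic and its
measures `μ_N` converge to the `(1/2,1/2)` Bernoulli measure as `N → ∞` in a set `S` of upper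
`w`-density one.

(2) For every function `g : ℕ → {-1,1}` and every `V` the family of all multiplicative `f` that are
close at `w`-almost all scales to `g (-1)^k`, for some nondecreasing `k : ℕ → ℕ` with
`k(x^2) ≤ k(x) + V`, is tame.

(3) If `g(p) = χ(p)` at all primes `p ∤ q` for a Dirichlet character `χ` modulo `q` then every
multiplicative `f` that is close to `g` at `w`-almost all scales and satisfies
`∑_{f(p) ≠ g(p)} 1/p = ∞` is aperiodic and its measures `μ_N` converge to the `(1/2,1/2)` Bernoulli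
measure as `N → ∞` in a set of `w`-density one.

(4) `f` is close to `h` at `w`-almost all scales if `∑_{x < p ≤ x^2, f(p) ≠ h(p)} 1/p → 0`, and,
for `w(N) = 1/(N log N)`, if `∑_{p ≤ x, f(p) ≠ h(p)} 1/p = o(log log x)`.

(5) If finitely many multiplicative functions are pairwise close at `w`-almost all scales and at
infinite distance then for every nonempty finite set of shifts the sum of the squares of their
logarithmic correlations is at most `1 + ε` at `w`-almost all scales. -/
theorem result :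
    (∀ w : ℕ → ℝ, (∀ n, 0 ≤ w n) → Tendsto (fun K => ∑ N ∈ Icc 1 K, w N) atTop atTop →
      (∀ F : Set (ℕ → ℤˣ), (∀ f ∈ F, MultS f) → Tame w F →
        ∃ C : Set (ℕ → ℤˣ), C.Countable ∧ C ⊆ F ∧ ∀ f ∈ F,
          (∀ c ∈ C, Tendsto (fun N => psum (fun p => f p ≠ c p) 0 N) atTop atTop) →
          Aperiodic f ∧ ∃ S : Set ℕ, (∀ ε : ℝ, 0 < ε → ∃ᶠ K in atTop, 1 - ε ≤ WD w S K) ∧
            FairAlong f (atTop ⊓ 𝓟 S)) ∧
      (∀ (g : ℕ → ℤˣ) (V : ℕ), Tame w (Osc w g V)) ∧
      (∀ (q : ℕ) (χ : DirichletCharacter ℂ q) (g f : ℕ → ℤˣ), 0 < q →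
        (∀ p : ℕ, p.Prime → ¬ p ∣ q → (((g p : ℤˣ) : ℤ) : ℂ) = χ (p : ZMod q)) →
        MultS f → Close w f g →
        Tendsto (fun N => psum (fun p => f p ≠ g p) 0 N) atTop atTop →
        Aperiodic f ∧ ∃ S : Set ℕ, Tendsto (WD w S) atTop (𝓝 1) ∧
          FairAlong f (atTop ⊓ 𝓟 S)) ∧
      (∀ f h : ℕ → ℤˣ,
        Tendsto (fun x : ℕ => psum (fun p => f p ≠ h p) x (x ^ 2)) atTop (𝓝 0) → Close w f h) ∧
      (∀ (r : ℕ) (f : Fin r → ℕ → ℤˣ), (∀ i, MultS (f i)) → (∀ i j, Close w (f i) (f j)) →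
        (∀ i j, i ≠ j → Tendsto (fun N => psum (fun p => f i p ≠ f j p) 0 N) atTop atTop) →
        ∀ H : Finset ℕ, H.Nonempty → ∀ ε : ℝ, 0 < ε →
          Tendsto (WD w {N | 1 + ε < ∑ i, lav (fun n => ∏ h ∈ H, ((f i (n + h) : ℤ) : ℝ)) N ^ 2})
            atTop (𝓝 0))) ∧
    (∀ f h : ℕ → ℤˣ,
      Tendsto (fun x : ℕ => psum (fun p => f p ≠ h p) 0 x / Real.log (Real.log x)) atTop (𝓝 0) →
      Close (fun N => 1 / (N * Real.log N)) f h) := by
  refine ⟨fun w hw hW => ⟨?_, ?_, ?_, ?_, ?_⟩, ?_⟩
  · intro F hF hT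
    obtain ⟨C, hC, hCF, h⟩ := tame_main hw hW hF hT
    refine ⟨C, hC, hCF, fun f hf hfar => ?_⟩
    obtain ⟨S, hS, hv⟩ := h f hf hfar
    have := neBotW hw hW hS
    exact ⟨hv.aperiodic inf_le_left (hF f hf), S, hS, fairAlong_of_vanish inf_le_left hv⟩
  · intro g V
    exact osc_tame hw hW g V
  · intro q χ g f hq hg hf hclose hfar
    obtain ⟨S, hS, hv⟩ := near_char hw hW hf hq χ hg hfar hclose
    have := neBot_full hw hW hS
    exact ⟨hv.aperiodic inf_le_left hf, S, hS, fairAlong_of_vanish inf_le_left hv⟩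
  · intro f h H
    exact close_of_sq hw hW f h H
  · intro r f hf hclose hfar H hne ε hε
    exact sharp hw hW Finset.univ f (fun i _ => hf i) (fun i _ j _ => hclose i j)
      (fun i _ j _ hij => hfar i j hij) H hne ε hε
  · intro f h H
    exact close_of_loglog f h H

end Pool.Agent.Results.MP_4a7640_nt.CountableExceptions
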