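import Mathlib
import Pool.Agent.Lib.P4a7640S.EntFin

/-!
# Growth of the entropies of multiplicative sign functions
-/

open Filter Topology
open Pool.Agent.Lib.P4a7640 Pool.Agent.Lib.P4a7640C Pool.Agent.Lib.P4a7640S

namespace Pool.Agent.Lib.Reserve.MP_4a7640_nt.EntropyGrowth

/-- Let `f, g : ℕ → {-1,1}` be arbitrary sequences with `u = f g` multiplicative and aperiodic, `χ` a
Dirichlet character, `l` a filter of scales, `J` a finite set of `L` shifts. `EntBd f g l J h`: for all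
large `N` along `l` the entropies of the patterns `(f(n+j))_{j ∈ J}` and `(g(n+j))_{j ∈ J}`, `n ≤ N`
with weights `1/n`, have sum at least `h`, and if `f`, `g` have Furstenberg systems `μ`, `ν` along `l`
then the entropies of the coordinates in `J` under `μ` and `ν` have sum at least `h`.

(1) If the sum of `(1 - Re u(p) conj χ(p))/p` over `N^(1/c) < p ≤ N` is at most `b log c + K + o(1)`
along `l` for all `c`, with `b < 1`, then the bound holds with `h = L^γ`, for `γ < (1-b)/(1+b)` and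
`L ≥ L₀(b, K, γ)`.

(2) If the smooth means `η ∑_p u(p) conj χ(p) log p / p^(1+η)` have real part at least `β > 0` for all
small `η > 0`, then it holds with `h = L^γ`, for `γ < β/(2-β)` and `L ≥ L₀(β, γ)`. -/
theorem result :
    (∀ b K γ : ℝ, 0 ≤ b → b < 1 → γ < (1 - b) / (1 + b) →
      ∃ L₀ : ℕ, ∀ f g : ℕ → ℤˣ, (MultS fun n => f n * g n) → (Aperiodic fun n => f n * g n) →
        ∀ q : ℕ, 0 < q → ∀ (χ : DirichletCharacter ℂ q) (l : Filter ℕ), l.NeBot → l ≤ atTop →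
        MassB l (ze (fun n => f n * g n) χ) b K →
        ∀ J : Finset ℕ, L₀ ≤ J.card → EntBd f g l J ((J.card : ℝ) ^ γ)) ∧
    (∀ β γ : ℝ, 0 < β → β ≤ 1 → γ < β / (2 - β) →
      ∃ L₀ : ℕ, ∀ f g : ℕ → ℤˣ, (MultS fun n => f n * g n) → (Aperiodic fun n => f n * g n) →
        ∀ q : ℕ, 0 < q → ∀ (χ : DirichletCharacter ℂ q),
        (∀ᶠ η in 𝓝[>] (0:ℝ), β ≤ (Dm (ze (fun n => f n * g n) χ) η).re) →
        ∀ l : Filter ℕ, l.NeBot → l ≤ atTop →
        ∀ J : Finset ℕ, L₀ ≤ J.card → EntBd f g l J ((J.card : ℝ) ^ γ)) :=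
  ⟨fun _ _ _ hb0 hb1 hγ => ent_main hb0 hb1 hγ, fun _ _ hβ0 hβ1 hγ => ent_D hβ0 hβ1 hγ⟩

end Pool.Agent.Lib.Reserve.MP_4a7640_nt.EntropyGrowth
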