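import Mathlib
import Pool.Agent.Lib.P4a7640S.MainT
import Pool.Agent.Lib.P4a7640S.DensL
import Pool.Agent.Lib.P4a7640S.Final
import Pool.Agent.Lib.P4a7640S.FurstJ

/-!
# Structure of multiplicative sign functions of low complexity
-/

open Filter Topology MeasureTheory
open Pool.Agent.Lib.P4a7640 Pool.Agent.Lib.P4a7640C Pool.Agent.Lib.P4a7640S

namespace Pool.Agent.Results.MP_4a7640_nt.LowComplexity

/-- Let `f, g : ℕ → {-1,1}` be arbitrary, `u = f g` multiplicative and aperiodic, `l` a filter of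
scales (all `N`, or a subsequence), `J` a finite set of `L` shifts. `Rich f g l J α`: the numbers of
sign patterns on `J` occurring in `f`, resp. `g`, have product more than `exp (L^α)`, and `J` has a
subset `J'` of at least `L^α` elements on which all `2^|J'|` sign patterns occur in `f`, or all occur
in `g` (always with positive upper logarithmic density along `l`).
`D_{χ,t}(η) = Dm (zt u χ t) η = η ∑_p u(p) conj χ(p) p^(-it) log p / p^(1+η)`. `Str u q T δ η χ₀`: all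
`|D_{χ,t}(η)|`, `χ` mod `q`, `t ∈ T`, are at most `δ`, except possibly (if `χ₀` is not `none`) that of
the real character `χ₀` and `t = 0`, for which `|D_{χ₀,0}(η) + 1| ≤ δ`.

(S) For every `u`: if `L` is large, then `Rich` holds for `α < 1/5`, or for all large `N` along `l`
there are a window `[y, R y] ⊆ [R, log L]` and a `χ₀` such that `Str u q T δ (e^s/log N) χ₀` holds on
the whole window.

(D) If, for an `α < 1/5`, there are arbitrarily large `J` for which `Rich f g atTop J α` fails, then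
`Str u q T δ (e^(-s)) χ₀` holds with some `χ₀ = χ₀(s)` for all `s` outside a set of density `0`.

(L) If, moreover, the same is true of some `f', g'` with `f'(p) g'(p) = -u(p)` on the primes (`f' g'` may
be the product of `u` and the Liouville function), then there is no exceptional character:
`|D_{χ,t}(e^(-s))| ≤ δ` for all `χ` mod `q`, `t ∈ T` and all `s` outside a set of density `0`.

(K) If along `l` the sum of `(1 - Re u(p) conj χ(p) p^(-it))/p` over `N^(1/c) < p ≤ N` is at most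
`b log c + K + o(1)` for all `c` (`MassB`), where `b < 1`, then `Rich` holds for `α < 1/(1 + 2 b)` and
`L ≥ L₀(α, b, K, τ)`, `|t| ≤ τ`.

(Q) If `u(p) = ψ(p mod q)` for the primes `p ∤ q`, where `ψ` is any function which is not `±` a
homomorphism, then `Rich` holds for `α < 1/4` and `L ≥ L₀(α, q)` (`u` is automatically aperiodic).

(F) If `μ` is a Furstenberg measure of `f` along `l`, then a pattern occurs along `l` if and only if its
`μ`-measure is positive. -/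
theorem result :
    (∀ (α R δ : ℝ), α < 1 / 5 → 1 ≤ R → 0 < δ → ∀ (q : ℕ) (_ : NeZero q) (T : Finset ℝ),
      ∃ L₀ : ℕ, ∀ f g : ℕ → ℤˣ, (MultS fun n => f n * g n) → (Aperiodic fun n => f n * g n) →
        ∀ l : Filter ℕ, l ≤ atTop → ∀ J : Finset ℕ, L₀ ≤ J.card → Rich f g l J α ∨
        ∀ᶠ N : ℕ in l, ∃ y : ℝ, R ≤ y ∧ R * y ≤ Real.log J.card ∧
          ∃ χ₀ : Option (DirichletCharacter ℂ q), ∀ s : ℝ, y ≤ s → s ≤ R * y →
            Str (fun n => f n * g n) q T δ (Real.exp s / Real.log N) χ₀) ∧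
    (∀ α : ℝ, α < 1 / 5 → ∀ f g : ℕ → ℤˣ, (MultS fun n => f n * g n) →
      (Aperiodic fun n => f n * g n) →
      (∀ L₀ : ℕ, ∃ J : Finset ℕ, L₀ ≤ J.card ∧ ¬ Rich f g atTop J α) →
      ∀ (q : ℕ) (_ : NeZero q) (T : Finset ℝ) (δ ρ : ℝ), 0 < δ → 0 < ρ →
      (∀ᶠ S : ℝ in atTop, volume ({s : ℝ | ¬ ∃ χ₀ : Option (DirichletCharacter ℂ q),
          Str (fun n => f n * g n) q T δ (Real.exp (-s)) χ₀} ∩ Set.Icc 0 S) ≤
        ENNReal.ofReal (ρ * S)) ∧
      ∀ f' g' : ℕ → ℤˣ, (MultS fun n => f' n * g' n) → (Aperiodic fun n => f' n * g' n) →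
        (∀ L₀ : ℕ, ∃ J : Finset ℕ, L₀ ≤ J.card ∧ ¬ Rich f' g' atTop J α) →
        (∀ p : ℕ, p.Prime → f' p * g' p = - (f p * g p)) →
        ∀ᶠ S : ℝ in atTop, volume ({s : ℝ | ¬ ∀ (χ : DirichletCharacter ℂ q), ∀ t ∈ T,
            ‖Dm (zt (fun n => f n * g n) χ t) (Real.exp (-s))‖ ≤ δ} ∩ Set.Icc 0 S) ≤
          ENNReal.ofReal (ρ * S)) ∧
    (∀ α b K τ : ℝ, 0 ≤ b → b < 1 → α * (1 + 2 * b) < 1 →
      ∃ L₀ : ℕ, ∀ f g : ℕ → ℤˣ, (MultS fun n => f n * g n) → (Aperiodic fun n => f n * g n) →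
        ∀ q : ℕ, 0 < q → ∀ (χ : DirichletCharacter ℂ q) (t : ℝ), |t| ≤ τ →
        ∀ l : Filter ℕ, l.NeBot → l ≤ atTop → MassB l (zt (fun n => f n * g n) χ t) b K →
        ∀ J : Finset ℕ, L₀ ≤ J.card → Rich f g l J α) ∧
    (∀ (q : ℕ) (_ : NeZero q) (α : ℝ), α < 1 / 4 →
      ∃ L₀ : ℕ, ∀ f g : ℕ → ℤˣ, (MultS fun n => f n * g n) → ∀ ψ : (ZMod q)ˣ → ℤˣ,
        (∀ p : ℕ, p.Prime → ∀ a : (ZMod q)ˣ, ((p:ℕ) : ZMod q) = (a : ZMod q) → f p * g p = ψ a) →
        (∀ (φ : (ZMod q)ˣ →* ℤˣ) (s : ℤˣ), ∃ a, ψ a ≠ s * φ a) →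
        ∀ l : Filter ℕ, l.NeBot → l ≤ atTop → ∀ J : Finset ℕ, L₀ ≤ J.card → Rich f g l J α) ∧
    (∀ (f : ℕ → ℤˣ) (l : Filter ℕ), l.NeBot → l ≤ atTop → ∀ μ : Measure (ℤ → SignType), Pool.Agent.Lib.P4a7640E.FurstAlong f l μ →
      ∀ (J : Finset ℕ) (x : J → ℤˣ), x ∈ patJ f l J ↔
        0 < μ.real {y | ∀ j : J, y (j : ℕ) = SignType.sign ((x j : ℤˣ) : ℤ)}) :=
  ⟨fun _ _ _ hα hR hδ q _ T => dichoT strHyp_univ hα hR hδ q T (fun _ _ => Set.mem_univ _),
    fun _ hα _ _ hm ha hlow q _ T _ _ hδ hρ =>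
      ⟨densT strHyp_univ hα hm ha hlow q T (fun _ _ => Set.mem_univ _) hδ hρ,
        fun _ _ hm' ha' hlow' hl => densL strHyp_univ hα hm ha hlow hm' ha' hlow' hl q T
          (fun _ _ => Set.mem_univ _) hδ hρ⟩,
    fun _ _ _ _ hb0 hb1 hα => by
      obtain ⟨L₀, h⟩ := corKT (K := _) (τ := _) strHyp_univ hb0 hb1 hα
      exact ⟨L₀, fun f g hm ha q hq χ t ht => h f g hm ha q hq χ t (Set.mem_univ _) ht⟩,
    fun _ _ _ hα => corQ hα,
    fun _ _ hne hl _ h J x => haveI := hne; mem_patJ_iff hl h J x⟩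

end Pool.Agent.Results.MP_4a7640_nt.LowComplexity
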