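import Mathlib
import Pool.Agent.Lib.P4a7640G.Final

/-!
# Growth of block entropies and of the number of sign patterns
-/

open MeasureTheory Filter Topology Finset
open Pool.Agent.Lib.P4a7640
open Pool.Agent.Lib.P4a7640E

namespace Pool.Agent.Results.MP_4a7640_nt.PatternGrowth

/-- Let `0 ≤ κ < 1/4` and `K` be real numbers. There are `a > 0` and `L₀` such that the following
holds. Let `f, g : ℕ → {-1,1}` be arbitrary sequences whose product `u = f * g` is multiplicative and
aperiodic, `χ` a real Dirichlet character and `l` a filter of scales (all `N`, or a subsequence) such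
that for all `c ≥ 1` and `δ > 0`, eventually along `l`, the sum of `1/p` over the primes
`N^(1/c) < p ≤ N` with `u p ≠ χ p` is at most `κ * log c + K + δ`. Then for all `L ≥ L₀`:

(E) eventually along `l`, the entropies of the blocks of length `L` of `f` and of `g` at the scale `N`
(logarithmic weights) have sum at least `a * L^(1 - 4 κ)`;

(P) the logarithms of the numbers of patterns of length `L` occurring in `f`, resp. `g`, with
positive upper logarithmic density along `l` have sum at least `a * L^(1 - 4 κ)`;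

(F) if `μ`, `ν` are the Furstenberg systems of `f`, `g` along `l`, then the entropies of `L`
coordinates under `μ` and `ν` have sum at least `a * L^(1 - 4 κ)`. -/
theorem result (κ K : ℝ) (hκ0 : 0 ≤ κ) (hκ : κ < 1 / 4) :
    ∃ a : ℝ, 0 < a ∧ ∃ L₀ : ℕ, ∀ f g : ℕ → ℤˣ, (MultS fun n => f n * g n) →
      (Aperiodic fun n => f n * g n) → ∀ q : ℕ, 0 < q →
      ∀ (χ : DirichletCharacter ℤ q) (l : Filter ℕ), l.NeBot → l ≤ atTop →
      (∀ c : ℕ, 1 ≤ c → ∀ δ : ℝ, 0 < δ →
        ∀ᶠ N in l, topMass c (fun n => f n * g n) χ N ≤ κ * Real.log c + K + δ) →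
      ∀ L : ℕ, L₀ ≤ L →
        (∀ᶠ N in l, a * (L:ℝ) ^ (1 - 4 * κ) ≤ Ent N (blk f L) + Ent N (blk g L)) ∧
        a * (L:ℝ) ^ (1 - 4 * κ) ≤ Real.log (pats f l L).card + Real.log (pats g l L).card ∧
        (∀ μ ν : Measure XX, FurstAlong f l μ → FurstAlong g l ν →
          a * (L:ℝ) ^ (1 - 4 * κ) ≤ HM μ L + HM ν L) :=
  Pool.Agent.Lib.P4a7640G.main hκ0 hκ

end Pool.Agent.Results.MP_4a7640_nt.PatternGrowth
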