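import Mathlib
import Pool.Agent.Lib.P4a7640N.Final
import Pool.Agent.Lib.P4a7640N.Bdd
import Pool.Agent.Lib.P4a7640N2.FinalC
import Pool.Agent.Lib.P4a7640N2.WeightC

/-!
# Robust Chowla: whole slow classes of almost every multiplicative function
-/

open MeasureTheory ProbabilityTheory Filter Topology
open Pool.Agent.Lib.P4a7640 Pool.Agent.Lib.P4a7640N Pool.Agent.Lib.P4a7640N2

namespace Pool.Agent.Results.MP_4a7640_nt.RobustChowla

/-- Let `ε_p` be independent random signs with arbitrary biases, `m_p` the smaller of `P(ε_p = 1)` and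
`P(ε_p = -1)`, `g_0, g_1, ...` arbitrary functions `ℕ → {-1,1}` (for instance the Liouville function
and its products with all real characters) and `w_0, w_1, ...` arbitrary bounded functions `ℕ → ℝ`.

(0) If `P(ε_p = 1)` and `P(ε_p = -1)` are at least `δ > 0` for all primes `p`, then almost surely, for
every `i`, EVERY multiplicative `f : ℕ → {-1,1}` in the slow class of `g_i ε`, that is, with
`∑_{√N < p ≤ N, f p ≠ g_i p * ε_p} 1/p → 0`, satisfies Chowla's conjecture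
`N⁻¹ ∑_{n ≤ N} f(n+h_1) ⋯ f(n+h_r) → 0` for all `r ≥ 1` and distinct `h_1, ..., h_r ≥ 0` (ordinary averages,
`ChowlaN`), satisfies it with every weight `w_j(n)` (`ChowlaW`), is aperiodic and has a unique Furstenberg
system, the `(1/2, 1/2)` Bernoulli shift.

(1) The same is true if only `∑_{N^(1/k) < p ≤ N} m_p / p` is bounded below by a positive constant for
some `k` and all large `N`.

(2) With no hypothesis on the biases: almost surely, for every `i`, every multiplicative `f` such that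
for all `V` and `δ > 0` and all large `N` there is a threshold `T ≥ log log log N` with
`∑_{T < p ≤ N} m_p / p ≥ V` and `∑_{T < p ≤ N, f p ≠ g_i p * ε_p} 1/p ≤ δ` is aperiodic and has a
unique Furstenberg system, the `(1/2, 1/2)` Bernoulli shift.

(3) With no hypothesis on the biases: almost surely, for every `i`, every multiplicative `f` such that
for all `V` and `δ > 0` and all large `N` there is a threshold `T ≥ log log N` with
the two inequalities of (2) has all the properties in (0). -/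
theorem result {Ω : Type*} [MeasurableSpace Ω] (P : Measure Ω) [IsProbabilityMeasure P]
    (ε : ℕ → Ω → ℤˣ) (hε : ∀ p, Measurable (ε p)) (hind : iIndepFun ε P) (g : ℕ → ℕ → ℤˣ)
    (w : ℕ → ℕ → ℝ) (hw : ∀ j, ∃ C : ℝ, ∀ n, |w j n| ≤ C) :
    (∀ δ : ℝ, 0 < δ →
      (∀ p : ℕ, p.Prime → δ ≤ P.real {ω | ε p ω = 1} ∧ δ ≤ P.real {ω | ε p ω = -1}) →
      ∀ᵐ ω ∂P, ∀ i : ℕ, ∀ f : ℕ → ℤˣ, MultS f →
        Tendsto (fun N : ℕ => ∑ p ∈ (Finset.Icc 1 N).filter
          (fun p : ℕ => p.Prime ∧ N < p ^ 2 ∧ f p ≠ g i p * ε p ω), (1 : ℝ) / p) atTop (𝓝 0) →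
        ChowlaN f ∧ (∀ j : ℕ, ChowlaW (w j) f) ∧ Aperiodic f ∧ FairSystem f) ∧
    ((∃ k : ℕ, ∃ c : ℝ, 0 < c ∧ ∀ᶠ N : ℕ in atTop,
        c ≤ ∑ p ∈ (Finset.Icc 1 N).filter (fun p : ℕ => p.Prime ∧ N < p ^ k),
          min (P.real {ω | ε p ω = 1}) (P.real {ω | ε p ω = -1}) / (p : ℝ)) →
      ∀ᵐ ω ∂P, ∀ i : ℕ, ∀ f : ℕ → ℤˣ, MultS f →
        Tendsto (fun N : ℕ => ∑ p ∈ (Finset.Icc 1 N).filter
          (fun p : ℕ => p.Prime ∧ N < p ^ 2 ∧ f p ≠ g i p * ε p ω), (1 : ℝ) / p) atTop (𝓝 0) →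
        ChowlaN f ∧ (∀ j : ℕ, ChowlaW (w j) f) ∧ Aperiodic f ∧ FairSystem f) ∧
    (∀ᵐ ω ∂P, ∀ i : ℕ, ∀ f : ℕ → ℤˣ, MultS f →
      (∀ V δ : ℝ, 0 < δ → ∀ᶠ N : ℕ in atTop, ∃ T : ℕ,
        Real.log (Real.log (Real.log N)) ≤ T ∧
        V ≤ ∑ p ∈ (Finset.Icc 1 N).filter (fun p : ℕ => p.Prime ∧ T < p),
          min (P.real {ω | ε p ω = 1}) (P.real {ω | ε p ω = -1}) / (p : ℝ) ∧
        ∑ p ∈ (Finset.Icc 1 N).filter (fun p : ℕ => p.Prime ∧ T < p ∧ f p ≠ g i p * ε p ω),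
          (1 : ℝ) / p ≤ δ) →
      Aperiodic f ∧ FairSystem f) ∧
    (∀ᵐ ω ∂P, ∀ i : ℕ, ∀ f : ℕ → ℤˣ, MultS f →
      (∀ V δ : ℝ, 0 < δ → ∀ᶠ N : ℕ in atTop, ∃ T : ℕ,
        Real.log (Real.log N) ≤ T ∧
        V ≤ ∑ p ∈ (Finset.Icc 1 N).filter (fun p : ℕ => p.Prime ∧ T < p),
          min (P.real {ω | ε p ω = 1}) (P.real {ω | ε p ω = -1}) / (p : ℝ) ∧
        ∑ p ∈ (Finset.Icc 1 N).filter (fun p : ℕ => p.Prime ∧ T < p ∧ f p ≠ g i p * ε p ω),
          (1 : ℝ) / p ≤ δ) →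
      ChowlaN f ∧ (∀ j : ℕ, ChowlaW (w j) f) ∧ Aperiodic f ∧ FairSystem f) := by
  have hmain := main (P := P) hε hind g
  have hmainC := mainC (P := P) hε hind g
  have hmainW := mainW (P := P) hε hind g hw
  refine ⟨fun δ hδ hb => ?_, fun hk => ?_, ?_, ?_⟩
  · filter_upwards [ces_slow_bdd (P := P) hε hind g hδ hb,
      ces_slow_bdd_ws (P := P) hε hind g hw hδ hb] with ω hω hωw i f hf hslow
    obtain ⟨h1, -, h3, h4⟩ := hω i f hf hslow
    exact ⟨h1, hωw i f hf hslow, h3, h4⟩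
  · filter_upwards [ces_slow (P := P) hε hind g hk,
      ces_slow_ws (P := P) hε hind g hw hk] with ω hω hωw i f hf hslow
    obtain ⟨h1, -, h3, h4⟩ := hω i f hf hslow
    exact ⟨h1, hωw i f hf hslow, h3, h4⟩
  · filter_upwards [hmain] with ω hω i f hf hcrit
    refine hω i f hf fun V δ hδ => ?_
    filter_upwards [hcrit V δ hδ] with N hN
    obtain ⟨T, h1, h2, h3⟩ := hN
    refine ⟨T, h1, ?_, ?_⟩
    · rw [MS_eq]
      exact h2
    · rw [ES_eq]
      exact h3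
  · filter_upwards [hmainC, hmainW] with ω hω hωw i f hf hcrit
    have hC : CritC (fun p => min (P.real {ω | ε p ω = 1}) (P.real {ω | ε p ω = -1})) f
        (fun p => g i p * ε p ω) := by
      intro V δ hδ
      filter_upwards [hcrit V δ hδ] with N hN
      obtain ⟨T, h1, h2, h3⟩ := hN
      refine ⟨T, h1, ?_, ?_⟩
      · rw [MS_eq]
        exact h2
      · rw [ES_eq]
        exact h3
    obtain ⟨h1, -, h3, h4⟩ := hω i f hf hC
    exact ⟨h1, hωw i f hf hC, h3, h4⟩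

end Pool.Agent.Results.MP_4a7640_nt.RobustChowla
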