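import Mathlib
import Pool.Agent.Lib.P4a7640R.Final

/-!
# Random multiplicative functions with independent signs at the primes
-/

open MeasureTheory ProbabilityTheory Filter Topology
open Pool.Agent.Lib.P4a7640 Pool.Agent.Lib.P4a7640R

namespace Pool.Agent.Results.MP_4a7640_nt.SparseRandomSigns

/-- Let `ε_p` be independent random signs with arbitrary biases.

(1) Let `g` be any function with values `±1` that is not aperiodic (for instance `g = 1` or a real
Dirichlet character). Suppose that the bias against `g` on the window `√N < p ≤ N`, that is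
`∑_{√N < p ≤ N} (P(ε_p ≠ g p) - P(ε_p = g p))⁺ / p`, tends to `0` along all scales `N` for which
`∑_{log log log N < p ≤ N} min (P(ε_p = 1)) (P(ε_p = -1)) / p` stays bounded. Then almost surely every
multiplicative `f : ℕ → {-1,1}` with `f p = ε_p` at all primes satisfies the assertion of Q1: it is not
aperiodic, or it has a unique Furstenberg system and this is the `(1/2, 1/2)` Bernoulli shift.

(2) If only `∑_p min (P(ε_p = 1)) (P(ε_p = -1)) / p = ∞`, then there is a deterministic set `S` of scales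
of upper logarithmic density one such that almost surely every such `f` is aperiodic and `μ_N` converges
weak-* to the fair coin Bernoulli measure as `N → ∞` in `S`. -/
theorem result {Ω : Type*} [MeasurableSpace Ω] (P : Measure Ω) [IsProbabilityMeasure P]
    (ε : ℕ → Ω → ℤˣ) (hε : ∀ p, Measurable (ε p)) (hind : iIndepFun ε P) :
    (∀ g : ℕ → ℤˣ, ¬ Aperiodic g →
      (∀ C κ : ℝ, 0 < κ → ∀ᶠ N : ℕ in atTop,
        ∑ p ∈ (Finset.Icc 1 N).filter
            (fun p : ℕ => p.Prime ∧ Real.log (Real.log (Real.log N)) < (p : ℝ)),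
          min (P.real {ω | ε p ω = 1}) (P.real {ω | ε p ω = -1}) / (p : ℝ) ≤ C →
        ∑ p ∈ (Finset.Icc 1 N).filter (fun p : ℕ => p.Prime ∧ N < p ^ 2),
          max (P.real {ω | ε p ω ≠ g p} - P.real {ω | ε p ω = g p}) 0 / (p : ℝ) ≤ κ) →
      ∀ᵐ ω ∂P, ∀ f : ℕ → ℤˣ, MultS f → (∀ p : ℕ, p.Prime → f p = ε p ω) →
        ¬ Aperiodic f ∨ FairSystem f) ∧
    (Tendsto (fun N : ℕ => ∑ p ∈ (Finset.Icc 1 N).filter Nat.Prime,
        min (P.real {ω | ε p ω = 1}) (P.real {ω | ε p ω = -1}) / (p : ℝ)) atTop atTop →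
      ∃ S : Set ℕ, UpDens S ∧ ∀ᵐ ω ∂P, ∀ f : ℕ → ℤˣ, MultS f → (∀ p : ℕ, p.Prime → f p = ε p ω) →
        Aperiodic f ∧ FairAlong f (atTop ⊓ 𝓟 S)) := by
  classical
  refine ⟨fun g hna hU => case_one hε hind hna fun C κ hκ => ?_, case_two hε hind⟩
  filter_upwards [hU C κ hκ] with N hN h1
  have h2 : Against P ε g N = ∑ p ∈ (Finset.Icc 1 N).filter (fun p : ℕ => p.Prime ∧ N < p ^ 2),
      max (P.real {ω | ε p ω ≠ g p} - P.real {ω | ε p ω = g p}) 0 / (p : ℝ) := by
    unfold Against TOPc
    rw [pow_one]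
  rw [h2]
  apply hN
  refine le_trans (le_of_eq ?_) h1
  unfold Rich PR l3
  refine Finset.sum_congr ?_ fun _ _ => rfl
  congr

end Pool.Agent.Results.MP_4a7640_nt.SparseRandomSigns
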